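import Pool.Agent.P8H7.GLn.Bridge2

/-!
# MP_fa98d2_nt: large Satake parameters at many primes are rare, for cusp forms on PGL(n), every n

Let `n ≥ 2` and `d = n(n+1)/2 - 1`. There is a constant `C` such that for every orthonormal family of spherical cusp forms
`φ` on `PGL_n(Z) \ PGL_n(R)` (Hecke eigenforms), all `T ≥ 2`, all sets `Q` of primes, all `1 ≤ k ≤ K` and all `t ≥ 0`,

  `#{φ : |μ| ≤ T, θ_{φ,p} > C t k log p / log T for at least K primes p ∈ Q}
      ≤ C T^d (C k^2 (K (log T)^2)^(-1) ∑_{p ∈ Q} (log p)^2 p^(-t))^k`,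

where `θ_{φ,p} = max_i |log_p |α_i||` over the Satake parameters at `p`, and `μ` are the Langlands parameters at infinity.
(By Weyl's law the number of all cusp forms with `|μ| ≤ T` has the order of magnitude `T^d`.)

* `t = 0`, `k = K = 1`, `Q` the primes up to `x`: all but `O(T^d x log x / (log T)^2)` of the cusp forms with `|μ| ≤ T` are
  tempered at every prime `p ≤ x`; so almost all of them satisfy the Ramanujan conjecture at all `p ≤ (log T)^(2-ε)`.
* `t = 2`, `k = K = 1`, `Q` all primes: outside a set of `O(T^d / (log T)^2)` cusp forms one has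
  `θ_{φ,p} ≤ 2 C log p / log T` at every prime `p`, of any size, at once.
* larger `k`, `K`: the number of cusp forms with many bad primes decays like a power with exponent `k`.

Nothing is assumed. The proof: duality with the indicator function of a small bi-`O(n)`-invariant neighbourhood of the
scalar matrices (radius `1/T`); unfolding with multiplicity; near returns of integral matrices; the Hecke operators
`T_N`, `N ≤ T^(1/(100 n^3))`; the energy of the complete symmetric functions of non-tempered unitary parameters, with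
exponential growth; an exceptional set defined by small values of quadratic forms; reduction theory (Iwasawa and
Lenstra-Lenstra-Lovasz reduced frames) for the unbounded part: packing bounds for the volumes of dyadic parts of the Siegel
domains, bounds for the number of near returns in them, and the decay of cusp forms from the vanishing of the constant terms
along the maximal parabolic subgroups, by comparison of balls with thin shells.
-/

set_option autoImplicit false

open MeasureTheory Matrix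
open scoped ENNReal Pool.Agent.P8H7.GLn

namespace Pool.Agent.Results.MP_fa98d2_nt.DensityAllRanks

/-- The Haar measure `|det g|^(-n) ∏ dg_ij` of `GL_n(R)`, as a measure on the space of all real matrices. -/
noncomputable def haar (n : ℕ) : Measure (Matrix (Fin n) (Fin n) ℝ) :=
  (volume : Measure (Matrix (Fin n) (Fin n) ℝ)).withDensity fun g => ENNReal.ofReal (|g.det| ^ n)⁻¹

/-- The Gram determinant of the rows `i, i+1, ..., n-1` of `h`. -/
noncomputable def gram (n : ℕ) (h : Matrix (Fin n) (Fin n) ℝ) (i : ℕ) : ℝ :=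
  Matrix.det fun (j k : {j : Fin n // i ≤ j.val}) => (h * hᵀ) j.1 k.1

/-- The function `a(h)^(μ+ρ)` of the Iwasawa decomposition `h = n a k` (`n` upper triangular unipotent, `k` orthogonal):
`a_i` is the square root of the quotient of the Gram determinants of the rows from `i` and from `i + 1` on, and
`ρ_i = (n-1)/2 - i`, `i = 0, ..., n-1`. -/
noncomputable def powerFn (n : ℕ) (μ : Fin n → ℂ) (h : Matrix (Fin n) (Fin n) ℝ) : ℂ :=
  ∏ i : Fin n, ((Real.sqrt (gram n h i.val / gram n h (i.val + 1)) : ℝ) : ℂ) ^ (μ i + ((((n : ℝ) - 1) / 2 - i.val : ℝ) : ℂ))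

/-- The complete homogeneous symmetric function of degree `m`: the coefficient of `X^m` in the product of the geometric
series `∑ (α_i X)^k`. -/
noncomputable def complete {n : ℕ} (α : Fin n → ℂ) (m : ℕ) : ℂ :=
  PowerSeries.coeff m (∏ i, PowerSeries.mk fun k => α i ^ k)

/-- The part of the matrix `N` in the rows before `r` and the columns from `r` on: `1 + block r N` runs over the unipotent
radical of the standard maximal parabolic subgroup of type `(r, n-r)`. -/
def block {n : ℕ} (r : ℕ) (N : Matrix (Fin n) (Fin n) ℝ) : Matrix (Fin n) (Fin n) ℝ :=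
  Matrix.of fun i j => if i.val < r ∧ r ≤ j.val then N i j else 0

/-- `f` is a spherical cusp form (Hecke eigenform of level one) on `PGL_n`, with Langlands parameters `μ` and with Satake
parameters `α p` at the primes `p` (up to passing to the contragredient, with the classical normalisation). -/
structure IsCuspForm (n : ℕ) (f : Matrix (Fin n) (Fin n) ℝ → ℂ) (μ : Fin n → ℂ) (α : ℕ → Fin n → ℂ) : Prop where
  /-- continuity on `GL_n(R)` -/
  cont : ContinuousOn f {g | g.det ≠ 0}
  /-- invariance under `GL_n(Z)` -/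
  left : ∀ (γ : GL (Fin n) ℤ) (g : Matrix (Fin n) (Fin n) ℝ), g.det ≠ 0 → f (γ.val.map (fun z : ℤ => (z : ℝ)) * g) = f g
  /-- invariance under the orthogonal group -/
  right : ∀ k g : Matrix (Fin n) (Fin n) ℝ, k * kᵀ = 1 → g.det ≠ 0 → f (g * k) = f g
  /-- invariance under the centre -/
  center : ∀ (t : ℝ) (g : Matrix (Fin n) (Fin n) ℝ), t ≠ 0 → g.det ≠ 0 → f (t • g) = f g
  /-- the constant terms along the maximal parabolic subgroups vanish -/
  cusp : ∀ r : ℕ, 0 < r → r < n → ∀ g : Matrix (Fin n) (Fin n) ℝ, g.det ≠ 0 →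
    ∫ N in {N : Matrix (Fin n) (Fin n) ℝ | ∀ i j, 0 ≤ N i j ∧ N i j ≤ 1}, f ((1 + block r N) * g) = 0
  /-- the parameters at the real place have sum zero -/
  sum_zero : ∑ i, μ i = 0
  /-- at the real place `f` is an eigenfunction of the convolution with all bounded measurable functions of compact
  support in `GL_n(R)` which are bi-invariant under the orthogonal group, with the eigenvalues of the principal series
  of parameter `μ` -/
  real : ∀ κ : Matrix (Fin n) (Fin n) ℝ → ℂ, Measurable κ → (∃ B : ℝ, ∀ h, ‖κ h‖ ≤ B) →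
    (∃ B : ℝ, 0 < B ∧ ∀ h, κ h ≠ 0 → (∀ i j, |h i j| ≤ B) ∧ B⁻¹ ≤ |h.det|) →
    (∀ k h : Matrix (Fin n) (Fin n) ℝ, k * kᵀ = 1 → κ (k * h) = κ h ∧ κ (h * k) = κ h) →
    ∀ g : Matrix (Fin n) (Fin n) ℝ, g.det ≠ 0 →
      ∫ h, f (g * h) * κ h ∂(haar n) = (∫ h, powerFn n μ h * κ h ∂(haar n)) * f g
  /-- the Hecke operators: sums over the matrices of determinant `N` in Hermite normal form -/
  hecke : ∀ N : ℕ, 0 < N → ∀ g : Matrix (Fin n) (Fin n) ℝ, g.det ≠ 0 →
    ∑ M ∈ Pool.Agent.P8H7.GLn.hnf n N, f (M.map (fun z : ℤ => (z : ℝ)) * g) =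
      (N : ℂ) ^ (((n : ℂ) - 1) / 2) * (∏ p ∈ N.primeFactors, complete (α p) (N.factorization p)) * f g
  /-- the central character is trivial -/
  prod_one : ∀ p : ℕ, p.Prime → ∏ i, α p i = 1
  /-- the local components are unitary: the set of Satake parameters is stable under `z ↦ 1 / conj z` -/
  unitary : ∀ p : ℕ, p.Prime → ∃ τ : Equiv.Perm (Fin n), ∀ i, α p (τ i) = ((starRingEnd ℂ) (α p i))⁻¹

/-- `θ = max_i |log_p |a_i||`, the deviation from temperedness at `p` for the Satake parameters `a`. -/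
noncomputable def theta {n : ℕ} (a : Fin n → ℂ) (p : ℕ) : ℝ := ⨆ i, |Real.logb p ‖a i‖|

/-- `D` is an exact fundamental domain for `GL_n(Z)` in `GL_n(R)`. -/
def IsDomain (n : ℕ) (D : Set (Matrix (Fin n) (Fin n) ℝ)) : Prop :=
  MeasurableSet D ∧ ∀ g : Matrix (Fin n) (Fin n) ℝ, g.det ≠ 0 →
    ∃! γ : GL (Fin n) ℤ, γ.val.map (fun z : ℤ => (z : ℝ)) * g ∈ D

/-- The matrices with absolute value of the determinant between `1/e` and `e`. -/
def slab (n : ℕ) : Set (Matrix (Fin n) (Fin n) ℝ) := {g | Real.exp (-1) ≤ |g.det| ∧ |g.det| ≤ Real.exp 1}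

open scoped Classical in
/-- Large Satake parameters at many primes are rare: the counting theorem, for every `n ≥ 2`. -/
theorem result (n : ℕ) (hn : 2 ≤ n) : ∃ C : ℝ, 1 ≤ C ∧
    ∀ (D : Set (Matrix (Fin n) (Fin n) ℝ)), IsDomain n D →
    ∀ (ι : Type) (f : ι → Matrix (Fin n) (Fin n) ℝ → ℂ) (μ : ι → Fin n → ℂ) (α : ι → ℕ → Fin n → ℂ),
      (∀ j, IsCuspForm n (f j) (μ j) (α j)) →
      (∀ j, ∫ g in D ∩ slab n, f j g * (starRingEnd ℂ) (f j g) ∂(haar n) = 1) →
      (∀ i j, i ≠ j → ∫ g in D ∩ slab n, f i g * (starRingEnd ℂ) (f j g) ∂(haar n) = 0) →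
      ∀ T : ℝ, 2 ≤ T → ∀ k K t : ℕ, 1 ≤ k → k ≤ K →
      ∀ Q : Set ℕ, (∀ p ∈ Q, p.Prime) → (Summable fun p : Q => Real.log p ^ 2 / (p : ℝ) ^ t) →
        {j | (∀ i, ‖μ j i‖ ≤ T) ∧
          (K : ℕ∞) ≤ {p | p ∈ Q ∧ C * t * k * Real.log p / Real.log T < theta (α j p) p}.encard}.Finite ∧
        ({j | (∀ i, ‖μ j i‖ ≤ T) ∧
          (K : ℕ∞) ≤ {p | p ∈ Q ∧ C * t * k * Real.log p / Real.log T < theta (α j p) p}.encard}.ncard : ℝ) ≤
          C * T ^ (n * (n + 1) / 2 - 1) *
            (C * k ^ 2 * (∑' p : Q, Real.log p ^ 2 / (p : ℝ) ^ t) / (K * Real.log T ^ 2)) ^ k := by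
  have hn0 : 0 < n := by omega
  obtain ⟨C, hC1, hmain⟩ := Pool.Agent.P8H7.GLn.count_thr (n := n) hn
  refine ⟨C, hC1, ?_⟩
  intro D hD ι f μ α hf h1 h0 T hT k K t hk hkK Q hQ hsum
  have hT1 : 1 ≤ T := by linarith
  have hT0 : 0 < T := by linarith
  have hL : 0 < Real.log T := Real.log_pos (by linarith)
  have hC0 : 0 < C := by linarith
  have hk0 : (0 : ℝ) < k := by exact_mod_cast hk
  have hK0 : (0 : ℝ) < K := by exact_mod_cast (by omega : 0 < K)
  have hD' : Pool.Agent.P8H7.GLn.IsFD D := ⟨hD.1, hD.2⟩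
  obtain ⟨X, hX⟩ : ∃ X : ℝ, X = C * T ^ (n * (n + 1) / 2 - 1) *
    (C * k ^ 2 * (∑' p : Q, Real.log p ^ 2 / (p : ℝ) ^ t) / (K * Real.log T ^ 2)) ^ k := ⟨_, rfl⟩
  obtain ⟨A, hA⟩ : ∃ A : Set ι, A = {j | (∀ i, ‖μ j i‖ ≤ T) ∧
    (K : ℕ∞) ≤ {p | p ∈ Q ∧ C * t * k * Real.log p / Real.log T < theta (α j p) p}.encard} := ⟨_, rfl⟩
  rw [← hX, ← hA]
  have hbound : ∀ S : Finset ι, (S : Set ι) ⊆ A → (S.card : ℝ) ≤ X := by
    intro S hSA
    have hS : ∀ j ∈ S, (∀ i, ‖μ j i‖ ≤ T) ∧
        (K : ℕ∞) ≤ {p | p ∈ Q ∧ C * t * k * Real.log p / Real.log T < theta (α j p) p}.encard := by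
      intro j hj
      have := hSA (Finset.mem_coe.2 hj)
      rw [hA] at this
      exact this
    -- finitely many primes suffice
    have hW : ∀ j : {j // j ∈ S}, ∃ W : Finset ℕ, (∀ p ∈ W, p ∈ Q ∧
        C * t * k * Real.log p / Real.log T < theta (α j p) p) ∧ K ≤ W.card := by
      intro j
      obtain ⟨W, hW1, hW2⟩ := Set.exists_subset_encard_eq (hS j j.2).2
      have hWf : W.Finite := Set.finite_of_encard_eq_coe hW2
      refine ⟨hWf.toFinset, fun p hp => hW1 ((Set.Finite.mem_toFinset hWf).1 hp), ?_⟩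
      have h3 : (hWf.toFinset.card : ℕ∞) = K := by
        rw [← Set.encard_coe_eq_coe_finsetCard, Set.Finite.coe_toFinset, hW2]
      exact (by exact_mod_cast h3 : hWf.toFinset.card = K).ge
    choose W hW1 hW2 using hW
    obtain ⟨Q0, hQ0⟩ : ∃ Q0 : Finset ℕ, Q0 = Finset.univ.biUnion W := ⟨_, rfl⟩
    have hQ0Q : ∀ p ∈ Q0, p ∈ Q := by
      intro p hp
      rw [hQ0] at hp
      obtain ⟨j, -, hj⟩ := Finset.mem_biUnion.1 hp
      exact (hW1 j p hj).1
    obtain ⟨F, hF⟩ : ∃ F : {j // j ∈ S} → Pool.Agent.P8H7.GLn.Mt n → ℂ, F = fun j => Pool.Agent.P8H7.GLn.ext0 (f j.val) :=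
      ⟨_, rfl⟩
    have hFeq : ∀ (j : {j // j ∈ S}) (g : Pool.Agent.P8H7.GLn.Mt n), g.det ≠ 0 → F j g = f j g := by
      intro j g hg
      rw [hF]
      exact Pool.Agent.P8H7.GLn.ext0_eq _ hg
    have hslab : ∀ g ∈ Pool.Agent.P8H7.GLn.Slab n, g.det ≠ 0 := fun g hg => Pool.Agent.P8H7.GLn.slab_det hg
    have hauto : ∀ j, Pool.Agent.P8H7.GLn.Auto (F j) := by
      intro j
      rw [hF]
      exact Pool.Agent.P8H7.GLn.auto_ext0 (hf j).cont (hf j).left (hf j).center
    have hcusp : ∀ j, Pool.Agent.P8H7.GLn.Cuspi (F j) := by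
      intro j
      rw [hF]
      exact Pool.Agent.P8H7.GLn.cusp_ext0 (hf j).cusp
    have hform : ∀ j, Pool.Agent.P8H7.GLn.Form (F j) (μ j) := by
      intro j
      refine ⟨hauto j, (hf j).sum_zero, fun ε hε0 hε1 g hg => ?_⟩
      have h2 := (hf j).real ((Pool.Agent.P8H7.GLn.Ball n ε).indicator 1)
        (measurable_one.indicator (Pool.Agent.P8H7.GLn.meas_ball ε)) ⟨1, fun h => by
          by_cases hh : h ∈ Pool.Agent.P8H7.GLn.Ball n ε
          · rw [Set.indicator_of_mem hh, Pi.one_apply, norm_one]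
          · rw [Set.indicator_of_notMem hh, norm_zero]
            exact zero_le_one⟩ ⟨5, by norm_num, fun h hh => by
          have hB : h ∈ Pool.Agent.P8H7.GLn.Ball n ε := by
            by_contra hc
            exact hh (Set.indicator_of_notMem hc _)
          refine ⟨fun i l => Pool.Agent.P8H7.GLn.ball_entry hn0 hε1 hB i l, ?_⟩
          refine le_trans ?_ hB.1
          rw [Real.exp_neg, inv_le_inv₀ (by norm_num) (Real.exp_pos 1)]
          linarith [Pool.Agent.P8H7.GLn.exp1_lt]⟩ (fun k h hk => by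
          constructor
          · by_cases hh : h ∈ Pool.Agent.P8H7.GLn.Ball n ε
            · rw [Set.indicator_of_mem hh, Set.indicator_of_mem ((Pool.Agent.P8H7.GLn.ball_left hk h).2 hh)]
              rfl
            · rw [Set.indicator_of_notMem hh, Set.indicator_of_notMem fun h' => hh ((Pool.Agent.P8H7.GLn.ball_left hk h).1 h')]
          · by_cases hh : h ∈ Pool.Agent.P8H7.GLn.Ball n ε
            · rw [Set.indicator_of_mem hh, Set.indicator_of_mem ((Pool.Agent.P8H7.GLn.ball_right hk h).2 hh)]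
              rfl
            · rw [Set.indicator_of_notMem hh, Set.indicator_of_notMem fun h' => hh ((Pool.Agent.P8H7.GLn.ball_right hk h).1 h')])
        g hg
      have e1 : ∀ G : Pool.Agent.P8H7.GLn.Mt n → ℂ, ∫ h, G h * (Pool.Agent.P8H7.GLn.Ball n ε).indicator 1 h ∂(haar n) =
          ∫ h in Pool.Agent.P8H7.GLn.Ball n ε, G h ∂(Pool.Agent.P8H7.GLn.nu n) := by
        intro G
        rw [← integral_indicator (Pool.Agent.P8H7.GLn.meas_ball ε)]
        refine integral_congr_ae (Filter.Eventually.of_forall fun h => ?_)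
        simp only
        by_cases hh : h ∈ Pool.Agent.P8H7.GLn.Ball n ε
        · rw [Set.indicator_of_mem hh, Set.indicator_of_mem hh, Pi.one_apply, mul_one]
        · rw [Set.indicator_of_notMem hh, Set.indicator_of_notMem hh, mul_zero]
      rw [e1, e1] at h2
      rw [hFeq j g hg]
      have e2 : ∫ h in Pool.Agent.P8H7.GLn.Ball n ε, F j (g * h) ∂(Pool.Agent.P8H7.GLn.nu n) =
          ∫ h in Pool.Agent.P8H7.GLn.Ball n ε, f j (g * h) ∂(Pool.Agent.P8H7.GLn.nu n) := by
        refine setIntegral_congr_fun (Pool.Agent.P8H7.GLn.meas_ball ε) fun h hh => ?_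
        refine hFeq j _ ?_
        rw [Matrix.det_mul]
        exact mul_ne_zero hg (Pool.Agent.P8H7.GLn.Ball.det_ne hh)
      rw [e2, h2]
      rfl
    have hheck : ∀ j : {j // j ∈ S}, Pool.Agent.P8H7.GLn.Heck (F j) (α j) := by
      intro j
      refine ⟨fun N hN x hx => ?_, fun p hp i h => ?_, fun p hp => ?_⟩
      · rw [hFeq j x hx]
        refine Eq.trans ?_ ((hf j).hecke N hN x hx)
        refine Finset.sum_congr rfl fun M hM => ?_
        refine hFeq j _ ?_
        rw [Matrix.det_mul, Pool.Agent.P8H7.GLn.det_ri, (Pool.Agent.P8H7.GLn.mem_hnf.1 hM).det]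
        refine mul_ne_zero ?_ hx
        push_cast
        exact_mod_cast hN.ne'
      · have h2 := (hf j).prod_one p hp
        rw [Finset.prod_eq_zero (Finset.mem_univ i) h] at h2
        exact zero_ne_one h2
      · obtain ⟨τ, hτ⟩ := (hf j).unitary p hp
        exact ⟨τ, hτ⟩
    have hcongr : ∀ i j : {j // j ∈ S}, ∫ g in D ∩ Pool.Agent.P8H7.GLn.Slab n, F i g * (starRingEnd ℂ) (F j g)
        ∂(Pool.Agent.P8H7.GLn.nu n) = ∫ g in D ∩ slab n, f i g * (starRingEnd ℂ) (f j g) ∂(haar n) := by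
      intro i j
      refine setIntegral_congr_fun (hD.1.inter Pool.Agent.P8H7.GLn.meas_slab) fun g hg => ?_
      rw [hFeq i g (hslab g hg.2), hFeq j g (hslab g hg.2)]
    have hbess : Pool.Agent.P8H7.GLn.Bess D F := by
      refine Pool.Agent.P8H7.GLn.bess_of (fun j => (hauto j).meas) (fun j => ?_) (fun i j hij => ?_)
      · rw [hcongr]
        exact h1 j
      · rw [hcongr]
        exact h0 i j fun h => hij (Subtype.ext h)
    have hnorm : ∀ j : {j // j ∈ S}, 1 ≤ ∫⁻ x in D ∩ Pool.Agent.P8H7.GLn.Slab n, ENNReal.ofReal (‖F j x‖ ^ 2)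
        ∂(Pool.Agent.P8H7.GLn.nu n) := by
      intro j
      refine Pool.Agent.P8H7.GLn.norm_one_of ?_
      rw [hcongr]
      exact h1 j
    have hfin := hmain D hD' {j // j ∈ S} F (fun j => μ j) (fun j => α j) hform hheck hcusp hbess hnorm T hT
      (fun j i => (hS j j.2).1 i) Q0 (fun p hp => hQ p (hQ0Q p hp)) k K t hk hkK (fun j => by
        refine (hW2 j).trans (Finset.card_le_card fun p hp => ?_)
        have hpQ := (hW1 j p hp).1
        have hpr := hQ p hpQ
        have hl : 0 < Real.log p := Real.log_pos (by exact_mod_cast hpr.one_lt)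
        refine Finset.mem_filter.2 ⟨?_, ?_⟩
        · rw [hQ0]
          exact Finset.mem_biUnion.2 ⟨j, Finset.mem_univ j, hp⟩
        · have h3 := (hW1 j p hp).2
          have hne : Nonempty (Fin n) := ⟨⟨0, hn0⟩⟩
          obtain ⟨i, hi⟩ := exists_lt_of_lt_ciSup h3
          refine ⟨i, ?_⟩
          rw [Real.logb, abs_div, abs_of_pos hl, lt_div_iff₀ hl] at hi
          refine lt_of_eq_of_lt ?_ hi
          ring)
    rw [Fintype.card_coe] at hfin
    refine hfin.trans ?_
    have hterm : ∀ p ∈ Q, 0 ≤ Real.log p ^ 2 / (p : ℝ) ^ t := fun p hp => by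
      have : (0 : ℝ) < p := by exact_mod_cast (hQ p hp).pos
      positivity
    have hle : ∑ p ∈ Q0, Real.log p ^ 2 / (p : ℝ) ^ t ≤ ∑' p : Q, Real.log p ^ 2 / (p : ℝ) ^ t := by
      have h3 : ∑ p ∈ Q0, Real.log p ^ 2 / (p : ℝ) ^ t =
          ∑ p ∈ Q0.attach.image (fun p => (⟨p.1, hQ0Q p.1 p.2⟩ : Q)), Real.log p ^ 2 / (p : ℝ) ^ t := by
        rw [Finset.sum_image]
        · exact (Finset.sum_attach Q0 fun p => Real.log p ^ 2 / (p : ℝ) ^ t).symm
        · intro p _ q _ hpq
          have hpq' := congrArg Subtype.val hpq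
          exact Subtype.ext hpq'
      rw [h3]
      exact hsum.sum_le_tsum _ fun p _ => hterm p p.2
    rw [hX]
    have h4 : 0 ≤ ∑ p ∈ Q0, Real.log p ^ 2 / (p : ℝ) ^ t := Finset.sum_nonneg fun p hp => hterm p (hQ0Q p hp)
    have e : Pool.Agent.P8H7.GLn.dm n = n * (n + 1) / 2 - 1 := rfl
    rw [e]
    gcongr
  have hfinite : A.Finite := by
    by_contra hinf
    obtain ⟨S, hS1, hS2⟩ := Set.Infinite.exists_subset_card_eq hinf (⌈X⌉₊ + 1)
    have h2 := hbound S hS1
    rw [hS2] at h2
    push_cast at h2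
    have h3 := Nat.le_ceil X
    linarith
  refine ⟨hfinite, ?_⟩
  rw [Set.ncard_eq_toFinset_card A hfinite]
  exact hbound _ (by rw [Set.Finite.coe_toFinset])

end Pool.Agent.Results.MP_fa98d2_nt.DensityAllRanks
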