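import Pool.Agent.P8H7.Single

/-!
# MP_fa98d2_nt: the exponents of almost all cusp forms of level one on PGL(2), at all primes at the same time

For a spherical cusp form `φ` on `PGL_2` and a prime `p` let `θ(φ, p) = max |log_p |α||` over the two Satake parameters
`α`; the conjecture says that it is zero. There are `A` and `C` such that for every orthonormal family of Hecke-Maass
cusp forms for `SL_2(Z)`, every `T ≥ 2` and every `K ≥ 1`

  `θ(φ, p) ≤ A K log p / log T` for all primes `p` whatsoever,

with the exception of at most `C 2^(-K) T^2 / (log T)^3` of the members of Laplace eigenvalue at most `1/4 + T^2` (there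
are about `T^2 / 12` of them).

So for almost all forms the violations of the conjecture at all small primes are uniformly small: with `K` constant,
`sup over p ≤ y of θ(φ, p) → 0` for `y = T^(o(1))`, with the exception of `O(T^2 / (log T)^3)` forms. In particular
`|λ(p)| ≤ 2 + O((log p)^4 / (log T)^2)` for all `p ≤ exp(c (log T)^(1/2))` for these forms.

Nothing is assumed. The proof: for one prime `p ≤ T^(1/320)` the counting inequality of this folder (duality with small
hyperbolic boxes, sparsity of near returns of integral matrices, energy and decay of cusp forms) is applied to the sum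
of the primitive Hecke operators of degree `p^(2l)`, `l ≤ m`, with weights proportional to `(2l+1) p^(-l)`,
`m` about `log T / (40 log p)`: it is larger than its edge value by the factor `p^(m θ / 2) / 4` on a form of exponent
`θ`. For the large primes and the large `K` one needs the bound `θ ≤ 6` for all forms and all primes, which is proved
by applying the inequality for one form to `l ≤ m` with `m → ∞`.
-/

set_option autoImplicit false

open MeasureTheory

namespace Pool.Agent.Results.MP_fa98d2_nt.ExponentsAtAllPrimes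

/-- The standard fundamental domain of `SL_2(Z)` in the upper half plane. -/
def FD : Set ℂ := {z : ℂ | 0 < z.im ∧ |z.re| ≤ 1 / 2 ∧ 1 ≤ ‖z‖}

/-- `U` is a real Hecke-Maass cusp form for `SL_2(Z)`, of norm one in `L^2`, with Laplace eigenvalue `Λ` and with
eigenvalue `lam p` of the normalised Hecke operator at the prime `p` (the sum over the matrices of determinant `p`
divided by the square root of `p`). -/
structure IsHeckeMaass (U : ℂ → ℝ) (Λ : ℝ) (lam : ℕ → ℝ) : Prop where
  smooth : ContDiffOn ℝ 2 U {z : ℂ | 0 < z.im}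
  translation : ∀ z : ℂ, 0 < z.im → U (z + 1) = U z
  inversion : ∀ z : ℂ, 0 < z.im → U (-z⁻¹) = U z
  laplace : ∀ z : ℂ, 0 < z.im →
    -(z.im) ^ 2 * (deriv (deriv (fun t : ℝ => U (z + (t : ℂ)))) 0 +
      deriv (deriv (fun t : ℝ => U (z + (t : ℂ) * Complex.I))) 0) = Λ * U z
  cusp : ∀ y : ℝ, 0 < y → ∫ x in (0 : ℝ)..1, U ((x : ℂ) + (y : ℂ) * Complex.I) = 0
  hecke : ∀ p : ℕ, p.Prime → ∀ z : ℂ, 0 < z.im →
    U (p * z) + ∑ b ∈ Finset.range p, U ((z + b) / p) = Real.sqrt p * lam p * U z
  norm_one : ∫ z in FD, U z ^ 2 / z.im ^ 2 = 1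

/-- The Satake parameters of an unramified representation of `PGL_2(Q_p)` with normalised Hecke eigenvalue `x` are
`α` and `α⁻¹` with `α + α⁻¹ = x`; its exponent is the maximum of the numbers `|log_p |α||`. This says that the exponent
is larger than `t`. -/
def Exceeds (p : ℕ) (x t : ℝ) : Prop := ∃ α : ℂ, α ≠ 0 ∧ α + α⁻¹ = (x : ℂ) ∧ t < |Real.logb p ‖α‖|

theorem form_of {U : ℂ → ℝ} {Λ : ℝ} {lam : ℕ → ℝ} (h : IsHeckeMaass U Λ lam) : Pool.Agent.P8H7.Sieve.Form U Λ where
  eig := ⟨h.smooth, h.translation, h.laplace, h.cusp⟩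
  auto := ⟨h.smooth.continuousOn, fun γ z => Pool.Agent.P8H7.Sieve.inv_of h.translation h.inversion γ z⟩
  norm := Pool.Agent.P8H7.Sieve.norm_of h.norm_one

/-- The main theorem. -/
theorem result : ∃ A C : ℝ, 0 < A ∧ 0 < C ∧
    ∀ (ι : Type) (U : ι → ℂ → ℝ) (Λ : ι → ℝ) (lam : ι → ℕ → ℝ),
      (∀ i, IsHeckeMaass (U i) (Λ i) (lam i)) →
      (∀ i j, i ≠ j → ∫ z in FD, U i z * U j z / z.im ^ 2 = 0) →
      ∀ T : ℝ, 2 ≤ T → ∀ K : ℝ, 1 ≤ K →
        {i : ι | Λ i ≤ 1 / 4 + T ^ 2 ∧
          ∃ p : ℕ, p.Prime ∧ Exceeds p (lam i p) (A * K * (Real.log p / Real.log T))}.Finite ∧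
        ({i : ι | Λ i ≤ 1 / 4 + T ^ 2 ∧
          ∃ p : ℕ, p.Prime ∧ Exceeds p (lam i p) (A * K * (Real.log p / Real.log T))}.ncard : ℝ) ≤
          C * (2 : ℝ) ^ (-K) * T ^ 2 / Real.log T ^ 3 := by
  classical
  obtain ⟨C0, hC0, hsingle⟩ := Pool.Agent.P8H7.Sieve.single
  refine ⟨2000, C0 * 400, by norm_num, by positivity, ?_⟩
  intro ι U Λ lam hU hort T hT K hK
  have hL : 0 < Real.log T := Real.log_pos (by linarith)
  have hK0 : 0 < K := by linarith
  refine Pool.Agent.P8H7.Sieve.fin_of fun S hS => ?_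
  have hrp : (2 : ℝ) ^ (-K) = Real.exp (-(Real.log 2 * K)) := by
    rw [Real.rpow_def_of_pos (by norm_num)]
    congr 1
    ring
  have key := Pool.Agent.P8H7.Sieve.union_bound S
    (fun i p => Exceeds p (lam i p) (2000 * K * (Real.log p / Real.log T)))
    (B := C0 * 200 * T ^ 2 * (Real.exp (-(Real.log 2 * K)) / Real.log T ^ 3)) (by positivity) ?_
    (fun i hi => (hS hi).2)
  · refine key.trans (le_of_eq ?_)
    rw [hrp]
    ring
  · intro p hp S' hS' hR
    rcases S'.eq_empty_or_nonempty with h0 | ⟨i0, hi0⟩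
    · rw [h0, Finset.card_empty, Nat.cast_zero]
      positivity
    have hlp : 69 / 100 ≤ Real.log p := by
      have h2 : Real.log 2 ≤ Real.log p := Real.log_le_log (by norm_num) (by exact_mod_cast hp.two_le)
      have := Real.log_two_gt_d9
      linarith
    have hlp0 : 0 < Real.log p := by linarith
    obtain ⟨t, ht⟩ : ∃ t : ℝ, t = 2000 * K * Real.log p ^ 2 / Real.log T := ⟨_, rfl⟩
    have ht0 : 0 < t := by rw [ht]; positivity
    have hy : ∀ i ∈ S', ∃ y : ℝ, t < y ∧ |lam i p| = Real.exp y + (Real.exp y)⁻¹ := by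
      intro i hi
      obtain ⟨α, h1, h2, h3⟩ := hR i hi
      have h4 : t < |Real.log ‖α‖| := by
        rw [Real.logb, abs_div, abs_of_pos hlp0, lt_div_iff₀ hlp0] at h3
        rw [ht]
        refine lt_of_eq_of_lt ?_ h3
        field_simp
      refine ⟨|Real.log ‖α‖|, h4, Pool.Agent.P8H7.Sieve.satake_exp h1 h2 ?_⟩
      intro h5
      rw [h5, Real.log_one, abs_zero] at h4
      linarith
    have hcrude : ∀ i ∈ S', ∀ y : ℝ, 0 < y → |lam i p| = Real.exp y + (Real.exp y)⁻¹ → y ≤ 6 * Real.log p := by
      intro i hi y hy0 hy1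
      have h1 := Pool.Agent.P8H7.Sieve.crude (form_of (hU i)) hp ⟨(hU i).translation, (hU i).hecke p hp⟩
        (Real.one_le_exp hy0.le) hy1
      have h2 : y ≤ Real.log ((p : ℝ) ^ 6) := by
        rw [Real.le_log_iff_exp_le (by have := hp.pos; positivity)]
        exact h1
      rw [Real.log_pow] at h2
      push_cast at h2
      exact h2
    have ht6 : t ≤ 6 * Real.log p := by
      obtain ⟨y, h1, h2⟩ := hy i0 hi0
      have := hcrude i0 hi0 y (by linarith) h2
      linarith
    have hpT : Real.log p ≤ Real.log T / 320 := by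
      rw [ht, div_le_iff₀ hL] at ht6
      have h1 : Real.log p * (2000 * K * Real.log p) ≤ Real.log p * (6 * Real.log T) := by nlinarith
      have h2 := le_of_mul_le_mul_left h1 hlp0
      nlinarith
    choose! y hy1 hy2 using hy
    have h1 := hsingle ↥S' (fun j => U j) (fun j => Λ j) (fun j => lam j p) (fun j => Real.exp (y j)) p hp
      (fun j => form_of (hU j)) (fun j => ⟨(hU j).translation, (hU j).hecke p hp⟩)
      (Pool.Agent.P8H7.Sieve.ortho_of (fun j => (hU j).smooth.continuousOn) (fun j => (hU j).norm_one)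
        (fun j l hjl => hort j l fun h => hjl (Subtype.ext h)))
      T hT (fun j => (hS (hS' j.2)).1) hpT t ht0.le
      (fun j => ⟨Real.exp_le_exp.2 (hy1 j j.2).le, hy2 j j.2⟩)
    rw [Fintype.card_coe] at h1
    refine h1.trans ?_
    have h2 := Pool.Agent.P8H7.Sieve.num_one hlp hpT hK ht ht6
    calc C0 * T ^ 2 * ((Real.log p / Real.log T) ^ 3 * Real.exp (-(t * (Real.log T / (80 * Real.log p)))) +
        Real.exp (-(Real.log T / 2))) ≤ C0 * T ^ 2 * (200 * (Real.exp (-(2 * Real.log p)) *
          (Real.exp (-(Real.log 2 * K)) / Real.log T ^ 3))) := by gcongr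
      _ = _ := by ring

end Pool.Agent.Results.MP_fa98d2_nt.ExponentsAtAllPrimes
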