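import Pool.Agent.P8H7.Ortho

/-!
# MP_fa98d2_nt: the generalized Ramanujan conjecture at small primes for almost all cusp forms of level one on PGL(2)

For every orthonormal family of Hecke-Maass cusp forms for `SL_2(Z)` we bound the number of members with Laplace
eigenvalue at most `1/4 + T^2` which are not tempered at `K` or more primes of a given finite set `Q` of primes by
`C T^2 (C k^3 / (K (log T)^3) * sum over Q of (log p)^3) ^ k`, for every `k` with `1 ≤ k ≤ K`.

The case `K = k = 1` and `Q` the set of the primes up to `x` says that all but `O(T^2 x (log x)^2 / (log T)^3)` of the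
(asymptotically `T^2 / 12`) forms satisfy the conjecture at every prime `p ≤ x`; so the conjecture holds for
almost all forms at every prime up to `(log T)^(3 - e)`. Larger `k` gives strong bounds for the number of forms with
many bad primes.

Nothing is assumed: the proof uses a duality argument with small hyperbolic boxes, the sparsity of near returns of
integral matrices, an energy estimate and the exponential decay of cusp forms, and the fact that the sum of the
primitive Hecke operators of degree `p^(2l)`, `l ≤ m`, with weights proportional to `(2l+1) p^(-l)`, is as large on a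
non-tempered form as its edge value.
-/

set_option autoImplicit false

open MeasureTheory

namespace Pool.Agent.Results.MP_fa98d2_nt.FewBadPrimesForAlmostAll

/-- The standard fundamental domain of `SL_2(Z)` in the upper half plane. -/
def FD : Set ℂ := {z : ℂ | 0 < z.im ∧ |z.re| ≤ 1 / 2 ∧ 1 ≤ ‖z‖}

/-- `U` is a real Hecke-Maass cusp form for `SL_2(Z)`, of norm one in `L^2`, with Laplace eigenvalue `Λ` and with
eigenvalue `lam p` of the normalised Hecke operator at the prime `p` (the sum over the matrices of determinant `p`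
divided by the square root of `p`). -/
structure IsHeckeMaass (U : ℂ → ℝ) (Λ : ℝ) (lam : ℕ → ℝ) : Prop where
  smooth : ContDiffOn ℝ 2 U {z : ℂ | 0 < z.im}
  translation : ∀ z : ℂ, 0 < z.im → U (z + 1) = U z
  inversion : ∀ z : ℂ, 0 < z.im → U (-z⁻¹) = U z
  laplace : ∀ z : ℂ, 0 < z.im →
    -(z.im) ^ 2 * (deriv (deriv (fun t : ℝ => U (z + (t : ℂ)))) 0 +
      deriv (deriv (fun t : ℝ => U (z + (t : ℂ) * Complex.I))) 0) = Λ * U z
  cusp : ∀ y : ℝ, 0 < y → ∫ x in (0 : ℝ)..1, U ((x : ℂ) + (y : ℂ) * Complex.I) = 0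
  hecke : ∀ p : ℕ, p.Prime → ∀ z : ℂ, 0 < z.im →
    U (p * z) + ∑ b ∈ Finset.range p, U ((z + b) / p) = Real.sqrt p * lam p * U z
  norm_one : ∫ z in FD, U z ^ 2 / z.im ^ 2 = 1

/-- The Satake parameters of an unramified representation of `PGL_2(Q_p)` with normalised Hecke eigenvalue `x` are
`α` and `α⁻¹` with `α + α⁻¹ = x`; it is tempered when they have absolute value one. -/
def Tempered (x : ℝ) : Prop := ∀ α : ℂ, α ≠ 0 → α + α⁻¹ = (x : ℂ) → ‖α‖ = 1

theorem form_of {U : ℂ → ℝ} {Λ : ℝ} {lam : ℕ → ℝ} (h : IsHeckeMaass U Λ lam) : Pool.Agent.P8H7.Sieve.Form U Λ where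
  eig := ⟨h.smooth, h.translation, h.laplace, h.cusp⟩
  auto := ⟨h.smooth.continuousOn, fun γ z => Pool.Agent.P8H7.Sieve.inv_of h.translation h.inversion γ z⟩
  norm := Pool.Agent.P8H7.Sieve.norm_of h.norm_one

theorem large {x : ℝ} (h : ¬ Tempered x) : 2 ≤ |x| := by
  unfold Tempered at h
  push Not at h
  obtain ⟨α, h1, h2, h3⟩ := h
  exact Pool.Agent.P8H7.Sieve.large_of h1 h2 h3

/-- The main theorem. -/
theorem result : ∃ C : ℝ, 0 < C ∧
    ∀ (ι : Type) (U : ι → ℂ → ℝ) (Λ : ι → ℝ) (lam : ι → ℕ → ℝ),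
      (∀ i, IsHeckeMaass (U i) (Λ i) (lam i)) →
      (∀ i j, i ≠ j → ∫ z in FD, U i z * U j z / z.im ^ 2 = 0) →
      ∀ T : ℝ, 2 ≤ T → ∀ Q : Finset ℕ, (∀ p ∈ Q, p.Prime) → ∀ k K : ℕ, 1 ≤ k → k ≤ K →
        {i : ι | Λ i ≤ 1 / 4 + T ^ 2 ∧ K ≤ {p : ℕ | p ∈ Q ∧ ¬ Tempered (lam i p)}.ncard}.Finite ∧
        ({i : ι | Λ i ≤ 1 / 4 + T ^ 2 ∧ K ≤ {p : ℕ | p ∈ Q ∧ ¬ Tempered (lam i p)}.ncard}.ncard : ℝ) ≤
          C * T ^ 2 * (C * k ^ 3 / (K * Real.log T ^ 3) * ∑ p ∈ Q, Real.log p ^ 3) ^ k := by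
  classical
  obtain ⟨C0, hC0, hjoint⟩ := Pool.Agent.P8H7.Sieve.joint
  refine ⟨max C0 3000000, lt_max_of_lt_left hC0, ?_⟩
  intro ι U Λ lam hU hort T hT Q hQ k K hk hkK
  have hL : 0 < Real.log T := Real.log_pos (by linarith)
  have hZ : 0 ≤ ∑ p ∈ Q, Real.log p ^ 3 := Finset.sum_nonneg fun p hp =>
    pow_nonneg (Real.log_nonneg (by exact_mod_cast (hQ p hp).one_lt.le)) 3
  refine Pool.Agent.P8H7.Sieve.fin_of fun S hS => ?_
  have key := Pool.Agent.P8H7.Sieve.many_primes S (fun i p => ¬ Tempered (lam i p)) (B := C0 * T ^ 2) (T := T)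
    (by positivity) hT ?_ hQ hk hkK ?_
  · refine key.trans ?_
    have h1 : 3000000 * (k : ℝ) ^ 3 * (∑ p ∈ Q, Real.log p ^ 3) / (K * Real.log T ^ 3) ≤
        max C0 3000000 * k ^ 3 / (K * Real.log T ^ 3) * ∑ p ∈ Q, Real.log p ^ 3 := by
      have h2 : 3000000 * (k : ℝ) ^ 3 * (∑ p ∈ Q, Real.log p ^ 3) / (K * Real.log T ^ 3) =
          3000000 * ((k : ℝ) ^ 3 / (K * Real.log T ^ 3) * ∑ p ∈ Q, Real.log p ^ 3) := by ring
      have h3 : max C0 3000000 * (k : ℝ) ^ 3 / (K * Real.log T ^ 3) * ∑ p ∈ Q, Real.log p ^ 3 =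
          max C0 3000000 * ((k : ℝ) ^ 3 / (K * Real.log T ^ 3) * ∑ p ∈ Q, Real.log p ^ 3) := by ring
      rw [h2, h3]
      exact mul_le_mul_of_nonneg_right (le_max_right _ _) (by positivity)
    have h4 : (3000000 * (k : ℝ) ^ 3 * (∑ p ∈ Q, Real.log p ^ 3) / (K * Real.log T ^ 3)) ^ k ≤
        (max C0 3000000 * k ^ 3 / (K * Real.log T ^ 3) * ∑ p ∈ Q, Real.log p ^ 3) ^ k :=
      pow_le_pow_left₀ (by positivity) h1 k
    exact mul_le_mul (mul_le_mul_of_nonneg_right (le_max_left _ _) (sq_nonneg _)) h4 (by positivity) (by positivity)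
  · intro I hI S' hS' hR
    have h1 := hjoint ↥S' (fun j => U j) (fun j => Λ j) (fun j => lam j) (fun j => form_of (hU j))
      (fun j p hp => ⟨(hU j).translation, (hU j).hecke p hp⟩)
      (Pool.Agent.P8H7.Sieve.ortho_of (fun j => (hU j).smooth.continuousOn) (fun j => (hU j).norm_one)
        (fun j l hjl => hort j l fun h => hjl (Subtype.ext h)))
      T hT (fun j => (hS (hS' j.2)).1) I hI (fun j p hp => large (hR j j.2 p hp))
    rwa [Fintype.card_coe] at h1
  · intro i hi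
    have h1 := (hS hi).2
    have h2 : {p : ℕ | p ∈ Q ∧ ¬ Tempered (lam i p)} = ((Q.filter fun p => ¬ Tempered (lam i p) : Finset ℕ) : Set ℕ) := by
      ext p
      simp
    rw [h2, Set.ncard_coe_finset] at h1
    convert h1

end Pool.Agent.Results.MP_fa98d2_nt.FewBadPrimesForAlmostAll
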