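import Pool.Agent.P8H7.GLn.Bridge

/-!
# MP_fa98d2_nt: non-tempered cusp forms on PGL(n), every n: a pointwise density theorem

Let `n ≥ 2`. For `T ≥ 2` there is an exceptional set `E` of invertible real matrices of Haar measure `O(T^(-1/4))`,
depending only on `n` and `T`, such that for every orthonormal family of spherical Hecke eigenforms `f_j` on
`PGL_n(Z) \ PGL_n(R)` (cusp forms or not), every finite set `Q` of primes, all `1 ≤ k ≤ K` and every `g` off `E` with
entries at most `T^(1/(100 n^3))`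

  `∑ |f_j(g)|^2 ≤ C T^(n(n+1)/2 - 1) (C k^2 (K (log T)^2)^(-1) ∑_{p ∈ Q} (log p)^2)^k`,

where `j` runs over the forms with all Langlands parameters at most `T` in absolute value which are non-tempered at `K`
or more primes of `Q`. Moreover the same bound holds on average over every measurable set `Ω` of such `g`, however small:
`∑ ∫_Ω |f_j|^2` is at most the same right hand side times `ν(Ω) + T^(-1/4)`.

By the local Weyl law the corresponding sums over all forms with parameters at most `T` have the order of magnitude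
`T^(n(n+1)/2 - 1)`. So (`K = k = 1`, `Q` the primes up to `x`) among all forms with parameters at most `T` those which are
non-tempered at some prime `p ≤ x` carry at most the proportion `O(x log x / (log T)^2)` of the mass at every point off
the exceptional set and on every set of measure at least `T^(-1/4)`: almost all of the mass, at almost every point, belongs
to forms satisfying the Ramanujan conjecture at all primes `p ≤ (log T)^(2-ε)`. The constant `C` depends only on `n`.

Nothing is assumed. The proof: duality with the indicator function of a small bi-`O(n)`-invariant neighbourhood of the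
scalar matrices (radius `1/T`), whose volume is bounded below by a covering argument with Gram matrices and whose
spherical transform is bounded below by comparison of principal minors; unfolding with multiplicity; near returns
`M g = g h` of integral matrices to the neighbourhood lead to two integral linear forms `a, b` with a small value of the
quadratic form `∑ (a·g_c)(b·g_c)` in the columns `g_c` of `g`, which defines the exceptional set; the Hecke operators
`T_N`, `N ≤ T^(1/(100 n^3))`, with the Hermite normal forms as representatives; and the energy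
`∑_{m ≤ M} |h_m(α)|^2 ≥ c (M+1)^3` of the complete symmetric functions at non-tempered unitary parameters.
-/

set_option autoImplicit false

open MeasureTheory Matrix
open scoped ENNReal Pool.Agent.P8H7.GLn

namespace Pool.Agent.Results.MP_fa98d2_nt.LocalDensityAllRanks

/-- The Haar measure `|det g|^(-n) ∏ dg_ij` of `GL_n(R)`, as a measure on the space of all real matrices. -/
noncomputable def haar (n : ℕ) : Measure (Matrix (Fin n) (Fin n) ℝ) :=
  (volume : Measure (Matrix (Fin n) (Fin n) ℝ)).withDensity fun g => ENNReal.ofReal (|g.det| ^ n)⁻¹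

/-- The Gram determinant of the rows `i, i+1, ..., n-1` of `h`. -/
noncomputable def gram (n : ℕ) (h : Matrix (Fin n) (Fin n) ℝ) (i : ℕ) : ℝ :=
  Matrix.det fun (j k : {j : Fin n // i ≤ j.val}) => (h * hᵀ) j.1 k.1

/-- The function `a(h)^(μ+ρ)` of the Iwasawa decomposition `h = n a k` (`n` upper triangular unipotent, `k` orthogonal):
`a_i` is the square root of the quotient of the Gram determinants of the rows from `i` and from `i + 1` on, and
`ρ_i = (n-1)/2 - i`, `i = 0, ..., n-1`. -/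
noncomputable def powerFn (n : ℕ) (μ : Fin n → ℂ) (h : Matrix (Fin n) (Fin n) ℝ) : ℂ :=
  ∏ i : Fin n, ((Real.sqrt (gram n h i.val / gram n h (i.val + 1)) : ℝ) : ℂ) ^ (μ i + ((((n : ℝ) - 1) / 2 - i.val : ℝ) : ℂ))

/-- The complete homogeneous symmetric function of degree `m`: the coefficient of `X^m` in the product of the geometric
series `∑ (α_i X)^k`. -/
noncomputable def complete {n : ℕ} (α : Fin n → ℂ) (m : ℕ) : ℂ :=
  PowerSeries.coeff m (∏ i, PowerSeries.mk fun k => α i ^ k)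

/-- `f` is a spherical Hecke eigenform of level one on `PGL_n`, with Langlands parameters `μ` and with Satake parameters
`α p` at the primes `p` (up to passing to the contragredient, with the classical normalisation). -/
structure IsHeckeForm (n : ℕ) (f : Matrix (Fin n) (Fin n) ℝ → ℂ) (μ : Fin n → ℂ) (α : ℕ → Fin n → ℂ) : Prop where
  /-- continuity on `GL_n(R)` -/
  cont : ContinuousOn f {g | g.det ≠ 0}
  /-- invariance under `GL_n(Z)` -/
  left : ∀ (γ : GL (Fin n) ℤ) (g : Matrix (Fin n) (Fin n) ℝ), g.det ≠ 0 → f (γ.val.map (fun z : ℤ => (z : ℝ)) * g) = f g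
  /-- invariance under the orthogonal group -/
  right : ∀ k g : Matrix (Fin n) (Fin n) ℝ, k * kᵀ = 1 → g.det ≠ 0 → f (g * k) = f g
  /-- invariance under the centre -/
  center : ∀ (t : ℝ) (g : Matrix (Fin n) (Fin n) ℝ), t ≠ 0 → g.det ≠ 0 → f (t • g) = f g
  /-- the parameters at the real place have sum zero -/
  sum_zero : ∑ i, μ i = 0
  /-- at the real place `f` is an eigenfunction of the convolution with all bounded measurable functions of compact
  support in `GL_n(R)` which are bi-invariant under the orthogonal group, with the eigenvalues of the principal series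
  of parameter `μ` -/
  real : ∀ κ : Matrix (Fin n) (Fin n) ℝ → ℂ, Measurable κ → (∃ B : ℝ, ∀ h, ‖κ h‖ ≤ B) →
    (∃ B : ℝ, 0 < B ∧ ∀ h, κ h ≠ 0 → (∀ i j, |h i j| ≤ B) ∧ B⁻¹ ≤ |h.det|) →
    (∀ k h : Matrix (Fin n) (Fin n) ℝ, k * kᵀ = 1 → κ (k * h) = κ h ∧ κ (h * k) = κ h) →
    ∀ g : Matrix (Fin n) (Fin n) ℝ, g.det ≠ 0 →
      ∫ h, f (g * h) * κ h ∂(haar n) = (∫ h, powerFn n μ h * κ h ∂(haar n)) * f g
  /-- the Hecke operators: sums over the matrices of determinant `N` in Hermite normal form -/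
  hecke : ∀ N : ℕ, 0 < N → ∀ g : Matrix (Fin n) (Fin n) ℝ, g.det ≠ 0 →
    ∑ M ∈ Pool.Agent.P8H7.GLn.hnf n N, f (M.map (fun z : ℤ => (z : ℝ)) * g) =
      (N : ℂ) ^ (((n : ℂ) - 1) / 2) * (∏ p ∈ N.primeFactors, complete (α p) (N.factorization p)) * f g
  /-- the central character is trivial -/
  prod_one : ∀ p : ℕ, p.Prime → ∏ i, α p i = 1
  /-- the local components are unitary: the set of Satake parameters is stable under `z ↦ 1 / conj z` -/
  unitary : ∀ p : ℕ, p.Prime → ∃ τ : Equiv.Perm (Fin n), ∀ i, α p (τ i) = ((starRingEnd ℂ) (α p i))⁻¹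

/-- `D` is an exact fundamental domain for `GL_n(Z)` in `GL_n(R)`. -/
def IsDomain (n : ℕ) (D : Set (Matrix (Fin n) (Fin n) ℝ)) : Prop :=
  MeasurableSet D ∧ ∀ g : Matrix (Fin n) (Fin n) ℝ, g.det ≠ 0 →
    ∃! γ : GL (Fin n) ℤ, γ.val.map (fun z : ℤ => (z : ℝ)) * g ∈ D

/-- The matrices with absolute value of the determinant between `1/e` and `e`. -/
def slab (n : ℕ) : Set (Matrix (Fin n) (Fin n) ℝ) := {g | Real.exp (-1) ≤ |g.det| ∧ |g.det| ≤ Real.exp 1}

/-- The elements of the slab with entries at most `T^(1/(100 n^3))`. -/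
def region (n : ℕ) (T : ℝ) : Set (Matrix (Fin n) (Fin n) ℝ) :=
  {g | g ∈ slab n ∧ ∀ i j, |g i j| ≤ T ^ (1 / (100 * (n : ℝ) ^ 3))}

open scoped Classical in
/-- The main theorem. -/
theorem result (n : ℕ) (hn : 2 ≤ n) : ∃ C : ℝ, 0 < C ∧ ∀ T : ℝ, 2 ≤ T →
    ∃ E : Set (Matrix (Fin n) (Fin n) ℝ), MeasurableSet E ∧ haar n E ≤ ENNReal.ofReal (C * T ^ (-(1 / 4) : ℝ)) ∧
    ∀ (D : Set (Matrix (Fin n) (Fin n) ℝ)), IsDomain n D →
    ∀ (ι : Type) (f : ι → Matrix (Fin n) (Fin n) ℝ → ℂ) (μ : ι → Fin n → ℂ) (α : ι → ℕ → Fin n → ℂ),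
      (∀ j, IsHeckeForm n (f j) (μ j) (α j)) →
      (∀ j, ∫ g in D ∩ slab n, f j g * (starRingEnd ℂ) (f j g) ∂(haar n) = 1) →
      (∀ i j, i ≠ j → ∫ g in D ∩ slab n, f i g * (starRingEnd ℂ) (f j g) ∂(haar n) = 0) →
      ∀ Q : Finset ℕ, (∀ p ∈ Q, p.Prime) → ∀ k K : ℕ, 1 ≤ k → k ≤ K →
      ∀ S : Finset ι, (∀ j ∈ S, (∀ i, ‖μ j i‖ ≤ T) ∧ K ≤ (Q.filter fun p => ∃ i, ‖α j p i‖ ≠ 1).card) →
        (∀ g ∈ region n T, g ∉ E → ∑ j ∈ S, ‖f j g‖ ^ 2 ≤
          C * T ^ (n * (n + 1) / 2 - 1) * (C * k ^ 2 * (∑ p ∈ Q, Real.log p ^ 2) / (K * Real.log T ^ 2)) ^ k) ∧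
        (∀ Ω : Set (Matrix (Fin n) (Fin n) ℝ), MeasurableSet Ω → Ω ⊆ region n T →
          ∑ j ∈ S, ∫⁻ g in Ω, ENNReal.ofReal (‖f j g‖ ^ 2) ∂(haar n) ≤
            ENNReal.ofReal (C * T ^ (n * (n + 1) / 2 - 1) *
              (C * k ^ 2 * (∑ p ∈ Q, Real.log p ^ 2) / (K * Real.log T ^ 2)) ^ k) *
            (haar n Ω + ENNReal.ofReal (T ^ (-(1 / 4) : ℝ)))) := by
  have hn0 : 0 < n := by omega
  obtain ⟨C1, hC1, hint⟩ := Pool.Agent.P8H7.GLn.int_main (n := n) hn0
  obtain ⟨C2, hC2, hexc⟩ := Pool.Agent.P8H7.GLn.exc_le (n := n) hn0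
  have hmono : ∀ T : ℝ, 2 ≤ T → ∀ (k K : ℕ) (Q : Finset ℕ),
      C1 * T ^ Pool.Agent.P8H7.GLn.dm n * (C1 * k ^ 2 * (∑ p ∈ Q, Real.log p ^ 2) / (K * Real.log T ^ 2)) ^ k ≤
      (C1 + C2) * T ^ (n * (n + 1) / 2 - 1) * ((C1 + C2) * k ^ 2 * (∑ p ∈ Q, Real.log p ^ 2) / (K * Real.log T ^ 2)) ^ k := by
    intro T hT k K Q
    have h0 : 0 ≤ ∑ p ∈ Q, Real.log p ^ 2 := Finset.sum_nonneg fun _ _ => by positivity
    have hle : C1 ≤ C1 + C2 := by linarith
    have e : Pool.Agent.P8H7.GLn.dm n = n * (n + 1) / 2 - 1 := rfl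
    rw [e]
    gcongr
  refine ⟨C1 + C2, by positivity, ?_⟩
  intro T hT
  have hT0 : 0 < T := by linarith
  refine ⟨Pool.Agent.P8H7.GLn.Exc n T, Pool.Agent.P8H7.GLn.meas_exc T, ?_, ?_⟩
  · refine (hexc T (by linarith)).trans (ENNReal.ofReal_le_ofReal ?_)
    have h1 : T ^ (-(41 / 100) : ℝ) ≤ T ^ (-(1 / 4) : ℝ) := Real.rpow_le_rpow_of_exponent_le (by linarith) (by norm_num)
    have h2 : 0 < T ^ (-(1 / 4) : ℝ) := by positivity
    nlinarith
  intro D hD ι f μ α hf h1 h0 Q hQ k K hk hkK S hS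
  have hD' : Pool.Agent.P8H7.GLn.IsFD D := ⟨hD.1, hD.2⟩
  obtain ⟨F, hF⟩ : ∃ F : {j // j ∈ S} → Pool.Agent.P8H7.GLn.Mt n → ℂ, F = fun j => Pool.Agent.P8H7.GLn.ext0 (f j.val) := ⟨_, rfl⟩
  have hFeq : ∀ (j : {j // j ∈ S}) (g : Pool.Agent.P8H7.GLn.Mt n), g.det ≠ 0 → F j g = f j g := by
    intro j g hg
    rw [hF]
    exact Pool.Agent.P8H7.GLn.ext0_eq _ hg
  have hslab : ∀ g ∈ Pool.Agent.P8H7.GLn.Slab n, g.det ≠ 0 := by
    intro g hg h
    have h2 := hg.1
    rw [h, abs_zero] at h2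
    linarith [Real.exp_pos (-1)]
  have hauto : ∀ j, Pool.Agent.P8H7.GLn.Auto (F j) := by
    intro j
    rw [hF]
    exact Pool.Agent.P8H7.GLn.auto_ext0 (hf j).cont (hf j).left (hf j).center
  have hform : ∀ j, Pool.Agent.P8H7.GLn.Form (F j) (μ j) := by
    intro j
    refine ⟨hauto j, (hf j).sum_zero, fun ε hε0 hε1 g hg => ?_⟩
    have h2 := (hf j).real ((Pool.Agent.P8H7.GLn.Ball n ε).indicator 1)
      (measurable_one.indicator (Pool.Agent.P8H7.GLn.meas_ball ε)) ⟨1, fun h => by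
        by_cases hh : h ∈ Pool.Agent.P8H7.GLn.Ball n ε
        · rw [Set.indicator_of_mem hh, Pi.one_apply, norm_one]
        · rw [Set.indicator_of_notMem hh, norm_zero]
          exact zero_le_one⟩ ⟨5, by norm_num, fun h hh => by
        have hB : h ∈ Pool.Agent.P8H7.GLn.Ball n ε := by
          by_contra hc
          exact hh (Set.indicator_of_notMem hc _)
        refine ⟨fun i l => Pool.Agent.P8H7.GLn.ball_entry hn0 hε1 hB i l, ?_⟩
        refine le_trans ?_ hB.1
        rw [Real.exp_neg, inv_le_inv₀ (by norm_num) (Real.exp_pos 1)]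
        linarith [Pool.Agent.P8H7.GLn.exp1_lt]⟩ (fun k h hk => by
        constructor
        · by_cases hh : h ∈ Pool.Agent.P8H7.GLn.Ball n ε
          · rw [Set.indicator_of_mem hh, Set.indicator_of_mem ((Pool.Agent.P8H7.GLn.ball_left hk h).2 hh)]
            rfl
          · rw [Set.indicator_of_notMem hh, Set.indicator_of_notMem fun h' => hh ((Pool.Agent.P8H7.GLn.ball_left hk h).1 h')]
        · by_cases hh : h ∈ Pool.Agent.P8H7.GLn.Ball n ε
          · rw [Set.indicator_of_mem hh, Set.indicator_of_mem ((Pool.Agent.P8H7.GLn.ball_right hk h).2 hh)]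
            rfl
          · rw [Set.indicator_of_notMem hh, Set.indicator_of_notMem fun h' => hh ((Pool.Agent.P8H7.GLn.ball_right hk h).1 h')])
      g hg
    have e1 : ∀ G : Pool.Agent.P8H7.GLn.Mt n → ℂ, ∫ h, G h * (Pool.Agent.P8H7.GLn.Ball n ε).indicator 1 h ∂(haar n) =
        ∫ h in Pool.Agent.P8H7.GLn.Ball n ε, G h ∂(Pool.Agent.P8H7.GLn.nu n) := by
      intro G
      rw [← integral_indicator (Pool.Agent.P8H7.GLn.meas_ball ε)]
      refine integral_congr_ae (Filter.Eventually.of_forall fun h => ?_)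
      simp only
      by_cases hh : h ∈ Pool.Agent.P8H7.GLn.Ball n ε
      · rw [Set.indicator_of_mem hh, Set.indicator_of_mem hh, Pi.one_apply, mul_one]
      · rw [Set.indicator_of_notMem hh, Set.indicator_of_notMem hh, mul_zero]
    rw [e1, e1] at h2
    rw [hFeq j g hg]
    have e2 : ∫ h in Pool.Agent.P8H7.GLn.Ball n ε, F j (g * h) ∂(Pool.Agent.P8H7.GLn.nu n) =
        ∫ h in Pool.Agent.P8H7.GLn.Ball n ε, f j (g * h) ∂(Pool.Agent.P8H7.GLn.nu n) := by
      refine setIntegral_congr_fun (Pool.Agent.P8H7.GLn.meas_ball ε) fun h hh => ?_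
      refine hFeq j _ ?_
      rw [Matrix.det_mul]
      exact mul_ne_zero hg (Pool.Agent.P8H7.GLn.Ball.det_ne hh)
    rw [e2, h2]
    rfl
  have hheck : ∀ j : {j // j ∈ S}, Pool.Agent.P8H7.GLn.Heck (F j) (α j) := by
    intro j
    refine ⟨fun N hN x hx => ?_, fun p hp i h => ?_, fun p hp => ?_⟩
    · rw [hFeq j x hx]
      refine Eq.trans ?_ ((hf j).hecke N hN x hx)
      refine Finset.sum_congr rfl fun M hM => ?_
      refine hFeq j _ ?_
      rw [Matrix.det_mul, Pool.Agent.P8H7.GLn.det_ri, (Pool.Agent.P8H7.GLn.mem_hnf.1 hM).det]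
      refine mul_ne_zero ?_ hx
      push_cast
      exact_mod_cast hN.ne'
    · have h2 := (hf j).prod_one p hp
      rw [Finset.prod_eq_zero (Finset.mem_univ i) h] at h2
      exact zero_ne_one h2
    · obtain ⟨τ, hτ⟩ := (hf j).unitary p hp
      exact ⟨τ, hτ⟩
  have hcongr : ∀ i j : {j // j ∈ S}, ∫ g in D ∩ Pool.Agent.P8H7.GLn.Slab n, F i g * (starRingEnd ℂ) (F j g)
      ∂(Pool.Agent.P8H7.GLn.nu n) = ∫ g in D ∩ slab n, f i g * (starRingEnd ℂ) (f j g) ∂(haar n) := by
    intro i j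
    refine setIntegral_congr_fun (hD.1.inter Pool.Agent.P8H7.GLn.meas_slab) fun g hg => ?_
    rw [hFeq i g (hslab g hg.2), hFeq j g (hslab g hg.2)]
  have hbess : Pool.Agent.P8H7.GLn.Bess D F := by
    refine Pool.Agent.P8H7.GLn.bess_of (fun j => (hauto j).meas) (fun j => ?_) (fun i j hij => ?_)
    · rw [hcongr]
      exact h1 j
    · rw [hcongr]
      exact h0 i j fun h => hij (Subtype.ext h)
  have hmain := hint D hD' {j // j ∈ S} F (fun j => μ j) (fun j => α j) hform hheck hbess T hT (fun j i => (hS j j.2).1 i)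
    Q hQ k K hk hkK (fun j => (hS j j.2).2.trans (Finset.card_le_card fun p hp =>
      Finset.mem_filter.2 ⟨(Finset.mem_filter.1 hp).1, (Finset.mem_filter.1 hp).2⟩))
  constructor
  · intro g hg hgE
    have h2 := hmain.1 g ⟨hg.2, hg.1⟩ hgE
    refine le_trans (le_of_eq ?_) (h2.trans (hmono T hT k K Q))
    rw [← Finset.sum_coe_sort S]
    refine Finset.sum_congr rfl fun j _ => ?_
    rw [hFeq j g (hslab g hg.1)]
  · intro Ω hΩ hΩR
    have h2 := hmain.2 Ω hΩ (fun g hg => ⟨(hΩR hg).2, (hΩR hg).1⟩)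
    have h3 : ∑ j ∈ S, ∫⁻ g in Ω, ENNReal.ofReal (‖f j g‖ ^ 2) ∂(haar n) =
        ∑ j : {j // j ∈ S}, ∫⁻ g in Ω, ENNReal.ofReal (‖F j g‖ ^ 2) ∂(Pool.Agent.P8H7.GLn.nu n) := by
      rw [← Finset.sum_coe_sort S]
      refine Finset.sum_congr rfl fun j _ => ?_
      refine setLIntegral_congr_fun hΩ fun g hg => ?_
      rw [hFeq j g (hslab g (hΩR hg).1)]
    rw [h3]
    refine h2.trans ?_
    refine mul_le_mul' (ENNReal.ofReal_le_ofReal (hmono T hT k K Q)) le_rfl

end Pool.Agent.Results.MP_fa98d2_nt.LocalDensityAllRanks
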